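import Pool.Agent.Helper4.CI.Goals
import Pool.Agent.Helper20.Mono.Crd
import Pool.Agent.Helper30.Mono.SideDual
import Pool.Agent.Helper40.Mono.DualFan

/-! Packet S2: the zeta function as a sum over simplices and their completions. -/

namespace Mono.CI.S2

open Finset Mono Mono.CI

variable {N k : ℕ}

/-! ### A double counting lemma -/

theorem abs_count {α β γ κ : Type*} (C : Finset α) (Fs : Finset β) (D : Finset γ)
    (P1 : α → β → Prop) (P2 : α → γ → Prop) (Comp : β → Finset κ) (Q : κ → γ → Prop)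
    (R : β → Prop) [∀ a, DecidablePred (P1 a)] [∀ a, DecidablePred (P2 a)]
    [∀ t, DecidablePred (Q t)] [DecidablePred R] (g : β → ℝ) (j : γ → ℝ)
    (h1 : ∀ ρ ∈ Fs, ∀ δ ∈ D, ∀ φ ∈ C, ∀ φ' ∈ C, P1 φ ρ → P2 φ δ → P1 φ' ρ → P2 φ' δ → φ = φ')
    (h2 : ∀ ρ ∈ Fs, ∀ δ ∈ D, ∀ τ ∈ Comp ρ, ∀ τ' ∈ Comp ρ, Q τ δ → Q τ' δ → τ = τ')
    (h3 : ∀ ρ ∈ Fs, ∀ δ ∈ D, (∃ φ ∈ C, P1 φ ρ ∧ P2 φ δ) ↔ ∃ τ ∈ Comp ρ, Q τ δ)
    (h4 : ∀ ρ ∈ Fs, (Comp ρ).Nonempty → R ρ) :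
    ∑ φ ∈ C, (∑ ρ ∈ Fs.filter (P1 φ), g ρ) * (∑ δ ∈ D.filter (P2 φ), j δ) =
      ∑ ρ ∈ Fs.filter R, g ρ * ∑ τ ∈ Comp ρ, ∑ δ ∈ D.filter (Q τ), j δ := by
  classical
  have e1 : ∑ φ ∈ C, (∑ ρ ∈ Fs.filter (P1 φ), g ρ) * (∑ δ ∈ D.filter (P2 φ), j δ) =
      ∑ φ ∈ C, ∑ ρ ∈ Fs, ∑ δ ∈ D, (if P1 φ ρ ∧ P2 φ δ then g ρ * j δ else 0) := by
    apply Finset.sum_congr rfl
    intro φ _
    rw [Finset.sum_filter, Finset.sum_filter, Finset.sum_mul_sum]
    apply Finset.sum_congr rfl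
    intro ρ _
    apply Finset.sum_congr rfl
    intro δ _
    by_cases hp1 : P1 φ ρ
    · by_cases hp2 : P2 φ δ
      · simp [hp1, hp2]
      · simp [hp2]
    · simp [hp1]
  have e2 : ∑ φ ∈ C, ∑ ρ ∈ Fs, ∑ δ ∈ D, (if P1 φ ρ ∧ P2 φ δ then g ρ * j δ else 0) =
      ∑ ρ ∈ Fs, ∑ δ ∈ D, ∑ φ ∈ C, (if P1 φ ρ ∧ P2 φ δ then g ρ * j δ else 0) := by
    rw [Finset.sum_comm]
    apply Finset.sum_congr rfl
    intro ρ _
    rw [Finset.sum_comm]
  have e3 : ∑ ρ ∈ Fs.filter R, g ρ * ∑ τ ∈ Comp ρ, ∑ δ ∈ D.filter (Q τ), j δ =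
      ∑ ρ ∈ Fs, ∑ δ ∈ D, ∑ τ ∈ Comp ρ, (if Q τ δ then g ρ * j δ else 0) := by
    rw [Finset.sum_filter]
    apply Finset.sum_congr rfl
    intro ρ hρ
    by_cases hR : R ρ
    · rw [if_pos hR, Finset.mul_sum, Finset.sum_comm]
      apply Finset.sum_congr rfl
      intro τ _
      rw [Finset.sum_filter, Finset.mul_sum]
      apply Finset.sum_congr rfl
      intro δ _
      by_cases hq : Q τ δ
      · simp [hq]
      · simp [hq]
    · rw [if_neg hR]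
      have : Comp ρ = ∅ := by
        rw [← Finset.not_nonempty_iff_eq_empty]
        exact fun h => hR (h4 ρ hρ h)
      rw [this]
      simp
  rw [e1, e2, e3]
  apply Finset.sum_congr rfl
  intro ρ hρ
  apply Finset.sum_congr rfl
  intro δ hδ
  by_cases h : ∃ φ ∈ C, P1 φ ρ ∧ P2 φ δ
  · obtain ⟨τ, hτ, hQ⟩ := (h3 ρ hρ δ hδ).1 h
    obtain ⟨φ, hφ, hP1, hP2⟩ := h
    rw [Finset.sum_eq_single_of_mem φ hφ, Finset.sum_eq_single_of_mem τ hτ, if_pos ⟨hP1, hP2⟩,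
      if_pos hQ]
    · intro τ' hτ' hne
      rw [if_neg]
      intro hQ'
      exact hne (h2 ρ hρ δ hδ τ' hτ' τ hτ hQ' hQ)
    · intro φ' hφ' hne
      rw [if_neg]
      rintro ⟨h1', h2'⟩
      exact hne (h1 ρ hρ δ hδ φ' hφ' φ hφ h1' h2' hP1 hP2)
  · have h' : ¬ ∃ τ ∈ Comp ρ, Q τ δ := fun h'' => h ((h3 ρ hρ δ hδ).2 h'')
    rw [Finset.sum_eq_zero, Finset.sum_eq_zero]
    · intro τ hτ
      rw [if_neg]
      exact fun hq => h' ⟨τ, hτ, hq⟩
    · intro φ hφ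
      rw [if_neg]
      exact fun hq => h ⟨φ, hφ, hq⟩

/-! ### Lifts -/

theorem lift_castAdd (c : Option (Fin k)) (u : Fin N → ℤ) (i : Fin N) :
    lift c u (Fin.castAdd k i) = u i := by
  unfold lift
  exact Fin.append_left _ _ _

theorem lift_natAdd (c : Option (Fin k)) (u : Fin N → ℤ) (j : Fin k) :
    lift c u (Fin.natAdd N j) = ind c j := by
  unfold lift
  exact Fin.append_right _ _ _

theorem ind_inj {c c' : Option (Fin k)} (h : ∀ j, ind c j = ind c' j) : c = c' := by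
  have e : ∀ (c : Option (Fin k)) (j : Fin k), ind c j = 1 ↔ c = some j := by
    intro c j
    unfold ind
    by_cases h : c = some j <;> simp [h]
  cases c with
  | none =>
    cases c' with
    | none => rfl
    | some j =>
      have h1 := (e (some j) j).2 rfl
      rw [← h j] at h1
      exact (e none j).1 h1
  | some i =>
    have h1 := (e (some i) i).2 rfl
    rw [h i] at h1
    exact ((e c' i).1 h1).symm

theorem base_lift (c : Option (Fin k)) (u : Fin N → ℤ) : base (lift c u) = u := by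
  funext i
  unfold base
  exact lift_castAdd c u i

theorem mem_cay {φ : Option (Fin k) → Finset (Fin N → ℤ)} {v : Fin (N + k) → ℤ} :
    v ∈ cay φ univ ↔ ∃ c, ∃ u ∈ φ c, lift c u = v := by
  unfold cay
  simp

theorem lift_mem_cay {φ : Option (Fin k) → Finset (Fin N → ℤ)} {c : Option (Fin k)}
    {u : Fin N → ℤ} : lift c u ∈ cay φ univ ↔ u ∈ φ c := by
  rw [mem_cay]
  constructor
  · rintro ⟨c', u', hu', he⟩
    have h1 : c' = c := by
      apply ind_inj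
      intro j
      rw [← lift_natAdd c' u' j, he, lift_natAdd]
    subst h1
    have h2 : u' = u := by
      rw [← base_lift c' u', he, base_lift]
    rwa [← h2]
  · intro h
    exact ⟨c, u, h, rfl⟩

/-! ### Dimensions -/

/-- the span of the differences -/
def LL (φ : Option (Fin k) → Finset (Fin N → ℤ)) : Submodule ℝ (Fin N → ℝ) :=
  Submodule.span ℝ {x : Fin N → ℝ | ∃ c, ∃ u ∈ φ c, ∃ v ∈ φ c, x = toR u - toR v}

theorem dimC_eq (φ : Option (Fin k) → Finset (Fin N → ℤ)) : dimC φ = Module.finrank ℝ (LL φ) :=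
  rfl

theorem LL_mono {φ ψ : Option (Fin k) → Finset (Fin N → ℤ)} (h : ∀ c, φ c ⊆ ψ c) :
    LL φ ≤ LL ψ := by
  apply Submodule.span_mono
  rintro x ⟨c, u, hu, v, hv, rfl⟩
  exact ⟨c, u, h c hu, v, h c hv, rfl⟩

theorem dim_mono {φ ψ : Option (Fin k) → Finset (Fin N → ℤ)} (h : ∀ c, φ c ⊆ ψ c) :
    dimC φ ≤ dimC ψ := Submodule.finrank_mono (LL_mono h)

theorem LL_eq {φ ψ : Option (Fin k) → Finset (Fin N → ℤ)} (h : ∀ c, φ c ⊆ ψ c)
    (hd : dimC ψ ≤ dimC φ) : LL φ = LL ψ :=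
  Submodule.eq_of_le_of_finrank_le (LL_mono h) hd

theorem LL_const {φ : Option (Fin k) → Finset (Fin N → ℤ)} {a : Fin N → ℤ}
    (h : ∀ c, ∀ u ∈ φ c, ∀ v ∈ φ c, a ⬝ᵥ u = a ⬝ᵥ v) : ∀ x ∈ LL φ, toR a ⬝ᵥ x = 0 := by
  intro x hx
  unfold LL at hx
  induction hx using Submodule.span_induction with
  | mem x hx =>
    obtain ⟨c, u, hu, v, hv, rfl⟩ := hx
    rw [dotProduct_sub, toR_dot_h40, toR_dot_h40, h c u hu v hv, sub_self]
  | zero => exact dotProduct_zero _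
  | add x y _ _ h1 h2 => rw [dotProduct_add, h1, h2, add_zero]
  | smul c x _ h1 => rw [dotProduct_smul, h1, smul_zero]

theorem const_of_LL {φ : Option (Fin k) → Finset (Fin N → ℤ)} {a : Fin N → ℤ}
    (h : ∀ x ∈ LL φ, toR a ⬝ᵥ x = 0) (c : Option (Fin k)) {u v : Fin N → ℤ} (hu : u ∈ φ c)
    (hv : v ∈ φ c) : a ⬝ᵥ u = a ⬝ᵥ v := by
  have h1 := h (toR u - toR v) (Submodule.subset_span ⟨c, u, hu, v, hv, rfl⟩)
  rw [dotProduct_sub, toR_dot_h40, toR_dot_h40] at h1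
  have h2 : ((a ⬝ᵥ u : ℤ) : ℝ) = ((a ⬝ᵥ v : ℤ) : ℝ) := by linarith
  exact_mod_cast h2

theorem dim_le {φ : Option (Fin k) → Finset (Fin N → ℤ)} {δ : Finset (Fin N → ℤ)}
    (hδ : Indep δ) (h : ∀ a ∈ δ, ∀ c, ∀ u ∈ φ c, ∀ v ∈ φ c, a ⬝ᵥ u = a ⬝ᵥ v) :
    δ.card + dimC φ ≤ N := by
  rw [dimC_eq]
  have hb := (Module.finBasis ℝ (LL φ)).linearIndependent
  have hb' : LinearIndependent ℝ (fun i => ((Module.finBasis ℝ (LL φ) i : LL φ) : Fin N → ℝ)) :=
    hb.map' (LL φ).subtype (Submodule.ker_subtype _)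
  have := SideD.orth_card (fun u : δ => toR (u : Fin N → ℤ))
    (fun i => ((Module.finBasis ℝ (LL φ) i : LL φ) : Fin N → ℝ)) hδ hb' (by
      intro a i
      exact LL_const (h a.1 a.2) _ (Module.finBasis ℝ (LL φ) i).2)
  simpa using this

/-! ### The face of a cone -/

open Classical in
/-- the face of the system dual to `δ` -/
noncomputable def fd (A : Option (Fin k) → Finset (Fin N → ℤ)) (δ : Finset (Fin N → ℤ)) :
    Option (Fin k) → Finset (Fin N → ℤ) :=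
  fun c => (A c).filter (fun v => ∀ a ∈ δ, a ⬝ᵥ v = NA (A c) a)

theorem mem_fd {A : Option (Fin k) → Finset (Fin N → ℤ)} {δ : Finset (Fin N → ℤ)}
    {c : Option (Fin k)} {v : Fin N → ℤ} :
    v ∈ fd A δ c ↔ v ∈ A c ∧ ∀ a ∈ δ, a ⬝ᵥ v = NA (A c) a := by
  unfold fd
  rw [Finset.mem_filter]

theorem mem_cfacesC {A φ : Option (Fin k) → Finset (Fin N → ℤ)} :
    φ ∈ cfacesC A ↔ ∃ a : Fin N → ℤ, (∀ i, 0 < a i) ∧ ∀ c, φ c = face (A c) a := by
  classical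
  unfold cfacesC
  rw [Finset.mem_filter, Fintype.mem_piFinset]
  constructor
  · exact fun h => h.2
  · rintro ⟨a, ha, h⟩
    refine ⟨fun c => ?_, a, ha, h⟩
    rw [Finset.mem_powerset, h c]
    exact Finset.filter_subset _ _

theorem mem_face' {A : Finset (Fin N → ℤ)} {a v : Fin N → ℤ} :
    v ∈ face A a ↔ v ∈ A ∧ a ⬝ᵥ v = NA A a := by
  unfold face
  rw [Finset.mem_filter]

theorem exists_min {A : Finset (Fin N → ℤ)} (hA : A.Nonempty) (a : Fin N → ℤ) :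
    ∃ v ∈ A, a ⬝ᵥ v = NA A a := by
  obtain ⟨v, hv, hmin⟩ := Finset.exists_min_image A (fun v => a ⬝ᵥ v) hA
  exact ⟨v, hv, (NA_eq' hv hmin).symm⟩

/-- (A) -/
theorem stepA {A φ : Option (Fin k) → Finset (Fin N → ℤ)} (hA : ∀ c, (A c).Nonempty)
    {δ : Finset (Fin N → ℤ)} (hδ : Indep δ) (hφ : φ ∈ cfacesC A) (hc : δ.card + dimC φ = N)
    (h : ∀ a ∈ δ, ∀ c, ∀ v ∈ φ c, a ⬝ᵥ v = NA (A c) a) : φ = fd A δ := by
  obtain ⟨a, ha, hφa⟩ := mem_cfacesC.1 hφ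
  have hsub : ∀ c, φ c ⊆ fd A δ c := by
    intro c v hv
    rw [mem_fd]
    refine ⟨?_, fun b hb => h b hb c v hv⟩
    rw [hφa c, mem_face'] at hv
    exact hv.1
  have hd : dimC (fd A δ) ≤ dimC φ := by
    have := dim_le (φ := fd A δ) hδ (by
      intro b hb c u hu v hv
      rw [(mem_fd.1 hu).2 b hb, (mem_fd.1 hv).2 b hb])
    omega
  have hL := LL_eq hsub hd
  have hconst : ∀ x ∈ LL (fd A δ), toR a ⬝ᵥ x = 0 := by
    rw [← hL]
    apply LL_const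
    intro c u hu v hv
    rw [hφa c, mem_face'] at hu hv
    rw [hu.2, hv.2]
  funext c
  apply Finset.Subset.antisymm (hsub c)
  intro v hv
  obtain ⟨u, hu, hua⟩ := exists_min (hA c) a
  have hu' : u ∈ φ c := by
    rw [hφa c, mem_face']
    exact ⟨hu, hua⟩
  rw [hφa c, mem_face']
  refine ⟨(mem_fd.1 hv).1, ?_⟩
  rw [← hua]
  exact const_of_LL hconst c hv (hsub c hu')

theorem dot_lift (z : Fin (N + k) → ℤ) (c : Option (Fin k)) (u : Fin N → ℤ) :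
    z ⬝ᵥ lift c u = base z ⬝ᵥ u + ∑ j, z (Fin.natAdd N j) * ind c j := by
  unfold dotProduct
  rw [Fin.sum_univ_add]
  congr 1
  · apply Finset.sum_congr rfl
    intro i _
    rw [lift_castAdd]
    rfl
  · apply Finset.sum_congr rfl
    intro j _
    rw [lift_natAdd]

theorem dot_lift_none (z : Fin (N + k) → ℤ) (u : Fin N → ℤ) :
    z ⬝ᵥ lift none u = base z ⬝ᵥ u := by
  rw [dot_lift]
  simp [ind]

/-- a direction with positive coordinates for a simplex -/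
theorem exists_dir (hS : ScaleRel) {A : Option (Fin k) → Finset (Fin N → ℤ)} {b : Fin N → ℝ}
    {L : ℕ} {b' : Fin (N + k) → ℝ} {Z : Finset (Fin (N + k) → ℤ)} {Φ' Φ : Fan (N + k)}
    (hT : TriC A b L b' Z Φ' Φ) {τ : Finset (Fin (N + k) → ℤ)} (hτ : τ ∈ Φ.faces)
    (hτA : τ ⊆ cay A univ) :
    ∃ a : Fin N → ℤ, (∀ i, 0 < a i) ∧ ∀ c, ∀ u, lift c u ∈ τ → a ⬝ᵥ u = NA (A c) a := by
  obtain ⟨-, -, -, s4, s5, s6, s7, -, -, -, -⟩ := hS N k A b L b' Z Φ' Φ hT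
  obtain ⟨F, hF, hτF⟩ := (Φ.mem_faces).1 hτ
  have hNice : Φ'.Nice (scay A L) Z := hT.tri.2.2.2.2.2.2
  obtain ⟨z, hz, hzF⟩ := hNice _ (s7 F hF)
  have hL : (0 : ℤ) < L := by
    have := hT.two_le
    exact_mod_cast (by omega : 0 < L)
  have hup : ∀ u ∈ τ, z ⬝ᵥ up L (Hset A Z) u = NA (scay A L) z := by
    intro u hu
    apply hzF
    rw [Finset.mem_sdiff]
    refine ⟨Finset.mem_image_of_mem _ (hτF hu), ?_⟩
    intro hcon
    have hv : u ∈ Φ.vert := Φ.mx_sub F hF (hτF hu)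
    exact Finset.disjoint_left.1 s5 (hτA hu) ((s4 u hv).1 hcon)
  refine ⟨base z, fun i => hz _, ?_⟩
  intro c u hu
  have hucay := hτA hu
  have huA : u ∈ A c := lift_mem_cay.1 hucay
  symm
  apply NA_eq' huA
  intro v hv
  have h1 := hup _ hu
  cases c with
  | none =>
    have hnot : lift none u ∉ Hset A Z := by
      rw [s6 _ hucay]
      intro j
      rw [lift_natAdd]
      simp [ind]
    have e1 : up L (Hset A Z) (lift none u) = (L : ℤ) • lift none u := by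
      unfold up
      rw [if_neg hnot]
    rw [e1, dotProduct_smul, dot_lift_none] at h1
    have hvs : lift none ((L : ℤ) • v) ∈ scay A L := by
      unfold scay
      apply Finset.mem_union_left
      exact Finset.mem_image_of_mem (fun v => lift none ((L : ℤ) • v)) hv
    have h2 := NA_le' z hvs
    rw [dot_lift_none, dotProduct_smul, ← h1] at h2
    simp only [smul_eq_mul] at h2
    exact le_of_mul_le_mul_left h2 hL
  | some j =>
    have hin : lift (some j) u ∈ Hset A Z := by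
      by_contra hnot
      rw [s6 _ hucay] at hnot
      have := hnot j
      rw [lift_natAdd] at this
      simp [ind] at this
    have e1 : up L (Hset A Z) (lift (some j) u) = lift (some j) u := by
      unfold up
      rw [if_pos hin]
    rw [e1, dot_lift] at h1
    have hvs : lift (some j) v ∈ scay A L := by
      unfold scay
      apply Finset.mem_union_right
      rw [Finset.mem_biUnion]
      exact ⟨j, Finset.mem_univ _, Finset.mem_image_of_mem _ hv⟩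
    have h2 := NA_le' z hvs
    rw [dot_lift, ← h1] at h2
    linarith

theorem mem_coll {ρ : Finset (Fin (N + k) → ℤ)} {c : Option (Fin k)} {u : Fin N → ℤ}
    {A : Option (Fin k) → Finset (Fin N → ℤ)} (hρ : ρ ⊆ cay A univ) :
    u ∈ coll ρ c ↔ lift c u ∈ ρ := by
  unfold coll
  rw [Finset.mem_image]
  constructor
  · rintro ⟨v, hv, rfl⟩
    rw [Finset.mem_filter] at hv
    obtain ⟨c', u', hu', he⟩ := mem_cay.1 (hρ hv.1)
    have h1 : c' = c := by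
      apply ind_inj
      intro j
      rw [← hv.2 j, ← he, lift_natAdd]
    subst h1
    rw [← he, base_lift, he]
    exact hv.1
  · intro h
    refine ⟨lift c u, ?_, base_lift c u⟩
    rw [Finset.mem_filter]
    exact ⟨h, fun j => lift_natAdd c u j⟩

/-- (B) -/
theorem stepB (hD : CardColl) (hS : ScaleRel) {A : Option (Fin k) → Finset (Fin N → ℤ)}
    {b : Fin N → ℝ}
    {L : ℕ} {b' : Fin (N + k) → ℝ} {Z : Finset (Fin (N + k) → ℤ)} {Φ' Φ : Fan (N + k)}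
    (hT : TriC A b L b' Z Φ' Φ) {τ : Finset (Fin (N + k) → ℤ)} (hτ : τ ∈ Φ.faces)
    (hτA : τ ⊆ cay A univ) (hcol : cols τ = univ) {δ : Finset (Fin N → ℤ)} (hδ : Indep δ)
    (hδ0 : ∀ a ∈ δ, ∀ i, 0 ≤ a i)
    (hcard : δ.card + τ.card = N + k + 1) (hdual : InDualC A τ δ) :
    τ ⊆ cay (fd A δ) univ ∧ δ.card + dimC (fd A δ) = N ∧ fd A δ ∈ cfacesC A := by
  have h1 : τ ⊆ cay (fd A δ) univ := by
    intro v hv
    obtain ⟨c, u, hu, rfl⟩ := mem_cay.1 (hτA hv)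
    rw [lift_mem_cay, mem_fd]
    exact ⟨hu, fun a ha => hdual a ha c u hv⟩
  have hsub : ∀ c, coll τ c ⊆ fd A δ c := by
    intro c u hu
    rw [mem_coll hτA] at hu
    exact lift_mem_cay.1 (h1 hu)
  have hind : Indep τ := ((Φ.mem_faces).1 hτ).indep
  have hle := dim_le (φ := fd A δ) hδ (by
      intro b hb c u hu v hv
      rw [(mem_fd.1 hu).2 b hb, (mem_fd.1 hv).2 b hb])
  have hge : τ.card ≤ dimC (coll τ) + (cols τ).card := by
    apply hD N k τ hind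
    intro v hv
    obtain ⟨c, u, _, rfl⟩ := mem_cay.1 (hτA hv)
    exact ⟨c, u, rfl⟩
  have hcu : (cols τ).card = k + 1 := by
    rw [hcol, Finset.card_univ, Fintype.card_option, Fintype.card_fin]
  have hmono := dim_mono hsub
  have h2 : δ.card + dimC (fd A δ) = N := by omega
  refine ⟨h1, h2, ?_⟩
  have hL : LL (coll τ) = LL (fd A δ) := by
    apply LL_eq hsub
    omega
  obtain ⟨a, ha, hmin⟩ := exists_dir hS hT hτ hτA
  have hconst : ∀ x ∈ LL (fd A δ), toR a ⬝ᵥ x = 0 := by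
    rw [← hL]
    apply LL_const
    intro c u hu v hv
    rw [mem_coll hτA] at hu hv
    rw [hmin c u hu, hmin c v hv]
  -- an element of each colour
  have hex : ∀ c, ∃ u, lift c u ∈ τ := by
    intro c
    have hc : c ∈ cols τ := by rw [hcol]; exact Finset.mem_univ _
    unfold cols at hc
    rw [Finset.mem_filter] at hc
    obtain ⟨-, v, hv, hvc⟩ := hc
    obtain ⟨c', u, hu, he⟩ := mem_cay.1 (hτA hv)
    have h1 : c' = c := by
      apply ind_inj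
      intro j
      rw [← hvc j, ← he, lift_natAdd]
    subst h1
    exact ⟨u, by rw [he]; exact hv⟩
  have hfda : ∀ c, ∀ v ∈ fd A δ c, a ⬝ᵥ v = NA (A c) a := by
    intro c v hv
    obtain ⟨u, hu⟩ := hex c
    rw [← hmin c u hu]
    exact const_of_LL hconst c hv (hsub c ((mem_coll hτA).2 hu))
  rw [mem_cfacesC]
  refine ⟨a + ∑ d ∈ δ, d, ?_, ?_⟩
  · intro i
    rw [Pi.add_apply, Finset.sum_apply]
    have := Finset.sum_nonneg (fun d hd => hδ0 d hd i)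
    have := ha i
    linarith
  · intro c
    have hdot : ∀ v : Fin N → ℤ, (a + ∑ d ∈ δ, d) ⬝ᵥ v = a ⬝ᵥ v + ∑ d ∈ δ, d ⬝ᵥ v := by
      intro v
      rw [add_dotProduct, sum_dotProduct]
    obtain ⟨u, hu⟩ := hex c
    have huf : u ∈ fd A δ c := hsub c ((mem_coll hτA).2 hu)
    have huA : u ∈ A c := (mem_fd.1 huf).1
    have hNA : NA (A c) (a + ∑ d ∈ δ, d) = NA (A c) a + ∑ d ∈ δ, NA (A c) d := by
      rw [NA_eq' huA]
      · rw [hdot, hfda c u huf]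
        congr 1
        exact Finset.sum_congr rfl fun d hd => (mem_fd.1 huf).2 d hd
      · intro v hv
        rw [hdot, hdot]
        apply add_le_add
        · rw [hfda c u huf]
          exact NA_le' a hv
        · apply Finset.sum_le_sum
          intro d hd
          rw [(mem_fd.1 huf).2 d hd]
          exact NA_le' d hv
    ext v
    rw [mem_face', hNA, hdot]
    constructor
    · intro hv
      refine ⟨(mem_fd.1 hv).1, ?_⟩
      rw [hfda c v hv]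
      congr 1
      exact Finset.sum_congr rfl fun d hd => (mem_fd.1 hv).2 d hd
    · rintro ⟨hvA, he⟩
      rw [mem_fd]
      refine ⟨hvA, ?_⟩
      have h3 : NA (A c) a ≤ a ⬝ᵥ v := NA_le' a hvA
      have h4 : ∀ d ∈ δ, NA (A c) d ≤ d ⬝ᵥ v := fun d _ => NA_le' d hvA
      have h5 := Finset.sum_le_sum h4
      have h6 : ∑ d ∈ δ, NA (A c) d = ∑ d ∈ δ, d ⬝ᵥ v := by linarith
      have h7 := (Finset.sum_eq_sum_iff_of_le h4).1 h6
      intro d hd
      exact (h7 d hd).symm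

theorem countC (h1 : UniqueCompl) (h5 : CoefSum) (hD : CardColl) (hS : ScaleRel) : CountC := by
  classical
  intro N k A b L b' Z Φ' Φ hT hb T hTA s w
  have hA : ∀ c, (A c).Nonempty := hT.good.ne
  have key : ∑ φ ∈ cfacesC A,
      (∑ ρ ∈ Φ.faces.filter (fun ρ => ρ ⊆ cay φ univ ∧ ρ.card = dimC φ + (cols ρ).card),
        gco s w ρ) *
      (∑ δ ∈ T.faces.filter (fun δ => δ.card + dimC φ = N ∧
        ∀ a ∈ δ, ∀ c, ∀ v ∈ φ c, a ⬝ᵥ v = NA (A c) a),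
        (idx (δ : Set (Fin N → ℤ)) : ℝ) / ∏ a ∈ δ, ((NA (A none) a : ℝ) * s + nuw A w a)) =
      ∑ ρ ∈ Φ.faces.filter (fun ρ => ρ ⊆ cay A univ),
        gco s w ρ * ∑ τ ∈ Compl A Φ ρ, ∑ δ ∈ T.faces.filter (fun δ => δ.card + τ.card = N + k + 1 ∧
          InDualC A τ δ),
        (idx (δ : Set (Fin N → ℤ)) : ℝ) / ∏ a ∈ δ, ((NA (A none) a : ℝ) * s + nuw A w a) := by
    have memCompl : ∀ ρ τ, τ ∈ Compl A Φ ρ ↔ τ ∈ Φ.faces ∧ ρ ⊆ τ ∧ τ ⊆ cay A univ ∧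
        cols τ = univ ∧ τ.card + (cols ρ).card = ρ.card + (k + 1) := by
      intro ρ τ
      unfold Compl
      rw [Finset.mem_filter]
    have hTi : ∀ δ ∈ T.faces, Indep δ := fun δ hδ => ((T.mem_faces).1 hδ).indep
    have hT0 : ∀ δ ∈ T.faces, ∀ a ∈ δ, ∀ i, 0 ≤ a i := fun δ hδ a ha =>
      T.vert_nonneg a (((T.mem_faces).1 hδ).subset_vert T ha)
    have hcsub : ∀ φ ∈ cfacesC A, ∀ c, φ c ⊆ A c := by
      intro φ hφ c
      obtain ⟨a, -, h⟩ := mem_cfacesC.1 hφ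
      rw [h c]
      exact Finset.filter_subset _ _
    -- from `τ` to the face
    have back : ∀ ρ ∈ Φ.faces, ∀ δ ∈ T.faces, ∀ τ ∈ Compl A Φ ρ,
        (δ.card + τ.card = N + k + 1 ∧ InDualC A τ δ) →
        fd A δ ∈ cfacesC A ∧ (ρ ⊆ cay (fd A δ) univ ∧ ρ.card = dimC (fd A δ) + (cols ρ).card) ∧
        (δ.card + dimC (fd A δ) = N ∧ ∀ a ∈ δ, ∀ c, ∀ v ∈ fd A δ c, a ⬝ᵥ v = NA (A c) a) ∧
        τ ⊆ cay (fd A δ) univ := by
      intro ρ hρ δ hδ τ hτ hQ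
      obtain ⟨t1, t2, t3, t4, t5⟩ := (memCompl ρ τ).1 hτ
      obtain ⟨b1, b2, b3⟩ := stepB hD hS hT t1 t3 t4 (hTi δ hδ) (hT0 δ hδ) hQ.1 hQ.2
      refine ⟨b3, ⟨t2.trans b1, ?_⟩, ⟨b2, fun a ha c v hv => (mem_fd.1 hv).2 a ha⟩, b1⟩
      have := hQ.1
      omega
    apply abs_count
    · intro ρ hρ δ hδ φ hφ φ' hφ' _ p2 _ p2'
      rw [stepA hA (hTi δ hδ) hφ p2.1 p2.2, stepA hA (hTi δ hδ) hφ' p2'.1 p2'.2]
    · intro ρ hρ δ hδ τ hτ τ' hτ' hQ hQ'
      obtain ⟨c1, c2, c3, c4⟩ := back ρ hρ δ hδ τ hτ hQ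
      obtain ⟨-, -, -, c4'⟩ := back ρ hρ δ hδ τ' hτ' hQ'
      obtain ⟨σ, -, hσ⟩ := h1 N k A b L b' Z Φ' Φ hT hb (fd A δ) c1 ρ hρ c2.1 c2.2
      rw [hσ τ ⟨hτ, c4⟩, hσ τ' ⟨hτ', c4'⟩]
    · intro ρ hρ δ hδ
      constructor
      · rintro ⟨φ, hφ, p1, p2⟩
        obtain ⟨τ, ⟨hτ, hτφ⟩, -⟩ := h1 N k A b L b' Z Φ' Φ hT hb φ hφ ρ hρ p1.1 p1.2
        refine ⟨τ, hτ, ?_, ?_⟩
        · obtain ⟨t1, t2, t3, t4, t5⟩ := (memCompl ρ τ).1 hτ
          have := p1.2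
          have := p2.1
          omega
        · intro a ha c v hv
          exact p2.2 a ha c v (lift_mem_cay.1 (hτφ hv))
      · rintro ⟨τ, hτ, hQ⟩
        obtain ⟨c1, c2, c3, c4⟩ := back ρ hρ δ hδ τ hτ hQ
        exact ⟨fd A δ, c1, c2, c3⟩
    · intro ρ hρ hne
      obtain ⟨τ, hτ⟩ := hne
      obtain ⟨t1, t2, t3, t4, t5⟩ := (memCompl ρ τ).1 hτ
      exact t2.trans t3
  have e1 : ZCw A T s w = ∑ φ ∈ cfacesC A, (1 / (s + 1)) *
      ((∑ ρ ∈ Φ.faces.filter (fun ρ => ρ ⊆ cay φ univ ∧ ρ.card = dimC φ + (cols ρ).card),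
        gco s w ρ) *
      (∑ δ ∈ T.faces.filter (fun δ => δ.card + dimC φ = N ∧
        ∀ a ∈ δ, ∀ c, ∀ v ∈ φ c, a ⬝ᵥ v = NA (A c) a),
        (idx (δ : Set (Fin N → ℤ)) : ℝ) / ∏ a ∈ δ, ((NA (A none) a : ℝ) * s + nuw A w a))) := by
    unfold ZCw
    apply Finset.sum_congr rfl
    intro φ hφ
    have h6 := h5 N k A b L b' Z Φ' Φ hT hb φ hφ s w
    rw [h6]
    ring_nf
  rw [e1, ← Finset.mul_sum, key]
  rfl

end Mono.CI.S2
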